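import Pool.Agent.H54.PM.Defs

/-!
# MP_def5ca_co: closed surfaces made of congruent regular hexagons. Definitions
-/

set_option autoImplicit false

namespace Pool.Agent.H54.RH

open Pool.Agent.H54.PM (body IsGon IsEdge Un IsPM ver edg chi Ori)

/-- regular hexagons of side length 1: convex hexagons with sides of length 1 all of whose vertices
have the distance 1 from a point -/
def IsRegHex {E : Type} [NormedAddCommGroup E] [NormedSpace ℝ E] (A : Finset E) : Prop :=
  IsGon 6 A ∧ (∀ u v, IsEdge A u v → dist u v = 1) ∧ ∃ c : E, ∀ u ∈ A, dist c u = 1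

/-! ### Words -/

section Words

variable {n : ℕ}

/-- words in the letters 0, 1, 2. A hexagon is given by a word with exactly three letters 1: the
coordinates at these places move, the other coordinates are constant 0 or 2 -/
abbrev W (n : ℕ) : Type := Fin n → Fin 3

/-- the places of the letter 1, and of the letter 2 -/
def act (h : W n) : Finset (Fin n) := Finset.univ.filter fun t => h t = 1
def two (h : W n) : Finset (Fin n) := Finset.univ.filter fun t => h t = 2

/-- `v` is a vertex of the hexagon `h`: of the three letters 1 one becomes 0 and one becomes 2 -/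
def IsVx (h v : W n) : Prop :=
  ∃ z y, h z = 1 ∧ h y = 1 ∧ z ≠ y ∧ v = Function.update (Function.update h z 0) y 2

instance (h v : W n) : Decidable (IsVx h v) := by unfold IsVx; infer_instance

/-- the point of a word -/
def pw (v : W n) : Fin n → ℝ := fun t => ((v t).val : ℝ)

open Classical in
/-- the vertices of the hexagon `h` -/
noncomputable def hf (h : W n) : Finset (Fin n → ℝ) := (Finset.univ.filter (IsVx h)).image pw

open Classical in
/-- the hexagons of a set of words -/
noncomputable def hfam (M : Finset (W n)) : Finset (Finset (Fin n → ℝ)) := M.image hf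

/-- the points of the hexagon `h` -/
def Pg (h : W n) : Set (Fin n → ℝ) :=
  {x | (∀ t, h t ≠ 1 → x t = ((h t).val : ℝ)) ∧ (∀ t, 0 ≤ x t ∧ x t ≤ 2) ∧ ∑ t ∈ act h, x t = 3}

/-- the letters at the places `k` and `l` are exchanged -/
def sw (h : W n) (k l : Fin n) : W n := fun t => if t = k then h l else if t = l then h k else h t

/-- neighbours in `M`: hexagons with a common edge -/
def nb (M : Finset (W n)) (h g : W n) : Prop := g ∈ M ∧ ∃ k l, h k = 1 ∧ h l ≠ 1 ∧ g = sw h k l

/-- neighbours in `M` whose common edge contains the vertex `v` -/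
def nbv (M : Finset (W n)) (v h g : W n) : Prop := nb M h g ∧ IsVx h v ∧ IsVx g v

/-- the sets of hexagons which form closed surfaces; `b` is the number of the letters 2 -/
structure Good (M : Finset (W n)) (b : ℕ) : Prop where
  ne : M.Nonempty
  three : ∀ h ∈ M, (act h).card = 3 ∧ (two h).card = b
  edge : ∀ h ∈ M, ∀ k, h k = 1 → ∀ c, c ≠ 1 → ∃! l, h l = c ∧ sw h k l ∈ M
  link : ∀ v, ∀ h ∈ M, ∀ g ∈ M, IsVx h v → IsVx g v → Relation.ReflTransGen (nbv M v) h g
  conn : ∀ h ∈ M, ∀ g ∈ M, Relation.ReflTransGen (nb M) h g

/-- the vertices; the Euler characteristic (there are three times as many edges as hexagons) -/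
def vx (M : Finset (W n)) : Finset (W n) := Finset.univ.filter fun v => ∃ h ∈ M, IsVx h v
def cx (M : Finset (W n)) : ℤ := ((vx M).card : ℤ) - 2 * M.card

/-- the number of the letters 1 strictly between the places `k` and `l` -/
def btw (h : W n) (k l : Fin n) : ℕ :=
  (Finset.univ.filter fun t => h t = 1 ∧ ((k < t ∧ t < l) ∨ (l < t ∧ t < k))).card

/-- orientability: a sign for every hexagon (compared with the order of the three moving
coordinates) such that neighbours are oriented coherently -/
def Orw (M : Finset (W n)) : Prop := ∃ s : W n → Bool, ∀ h ∈ M, ∀ k l, h k = 1 → h l ≠ 1 →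
  sw h k l ∈ M → (s (sw h k l) = s h ↔ Odd (btw h k l))

/-! ### Stacking -/

/-- the word `q` with four letters 1 gives a truncated tetrahedron: its four hexagons belong to `M` -/
def Full (M : Finset (W n)) (q : W n) : Prop :=
  (act q).card = 4 ∧ ∀ w, q w = 1 → Function.update q w 2 ∈ M

/-- a new coordinate, which is 0 -/
def up (h : W n) : W (n + 1) := Fin.cons 0 h

/-- the twenty hexagons of the surface of Coxeter in the new coordinate and the four moving
coordinates of `q` -/
def blk (q : W n) : Finset (W (n + 1)) := Finset.univ.filter fun g =>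
  (∀ t, q t ≠ 1 → g t.succ = q t) ∧ (act g).card = 3 ∧ (two g).card = (two q).card + 1

open scoped symmDiff in
/-- stacking -/
def stk (M : Finset (W n)) (q : W n) : Finset (W (n + 1)) := (M.image up) ∆ blk q

/-- the map into Euclidean space -/
noncomputable def Lm (n : ℕ) : (Fin n → ℝ) →L[ℝ] EuclideanSpace ℝ (Fin n) :=
  (Real.sqrt 2)⁻¹ •
    ((EuclideanSpace.equiv (Fin n) ℝ).symm : (Fin n → ℝ) →L[ℝ] EuclideanSpace ℝ (Fin n))

/-- a cyclic enumeration of the places which move at the vertex `v`: at the even ones `v` is 0, at
the odd ones `v` is 2 -/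
structure Lk (M : Finset (W n)) (v : W n) (d : ℕ) [NeZero d] (r : Fin d → Fin n) : Prop where
  even : Even d
  inj : Function.Injective r
  zero : ∀ k : Fin d, Even k.val → v (r k) = 0
  two : ∀ k : Fin d, ¬ Even k.val → v (r k) = 2
  mem : ∀ h, (h ∈ M ∧ IsVx h v) ↔
    ∃ k, h = Function.update (Function.update v (r k) 1) (r (k + 1)) 1

/-- `X` is the Euler characteristic of an orientable, of a nonorientable surface -/
def OI (X : ℤ) : Prop := ∃ (n b : ℕ) (M : Finset (W n)) (q : W n), Good M b ∧ Full M q ∧ Orw M ∧
  cx M = X
def NI (X : ℤ) : Prop := ∃ (n b : ℕ) (M : Finset (W n)) (q : W n), Good M b ∧ Full M q ∧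
  cx M = X ∧ ∃ S ⊆ M, ¬ Orw S ∧ ∀ w, q w = 1 → Function.update q w 2 ∉ S

end Words

/-! ### Codes -/

section Codes

/-- digits in base 3; the code of a word; the set of words with the codes in the mask `m` -/
def dg (c t : ℕ) : ℕ := c / 3 ^ t % 3
def cd {n : ℕ} (h : W n) : ℕ := ∑ t : Fin n, (h t).val * 3 ^ t.val
def MS (n m : ℕ) : Finset (W n) := Finset.univ.filter fun h => m.testBit (cd h) = true

/-- the codes below `3 ^ n` in the mask -/
def codes (n m : ℕ) : List ℕ := (List.range (3 ^ n)).filter fun c => m.testBit c

/-- the number of the digits `e`; exchange of two digits; digits 1 between two places -/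
def cnt (n c e : ℕ) : ℕ := ((List.range n).filter fun t => dg c t == e).length
def csw (c k l : ℕ) : ℕ :=
  (c + dg c l * 3 ^ k + dg c k * 3 ^ l) - (dg c k * 3 ^ k + dg c l * 3 ^ l)
def cbt (n c k l : ℕ) : ℕ := ((List.range n).filter fun t =>
  dg c t == 1 && ((Nat.blt k t && Nat.blt t l) || (Nat.blt l t && Nat.blt t k))).length

/-- three letters 1 and `b` letters 2 -/
def ck1 (n b m : ℕ) : Bool := (codes n m).all fun c => cnt n c 1 == 3 && cnt n c 2 == b

/-- every edge is in exactly two hexagons -/
def ck2 (n m : ℕ) : Bool := (codes n m).all fun c => (List.range n).all fun k =>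
  dg c k != 1 || (([0, 2] : List ℕ).all fun e =>
    ((List.range n).filter fun l => dg c l == e && m.testBit (csw c k l)).length == 1)

/-- the neighbour of `c` in which the place `k` (a letter 1) gets the letter `e`: the new place and
the new code -/
def nxt (n m c k e : ℕ) : ℕ × ℕ :=
  match (List.range n).find? fun l => dg c l == e && m.testBit (csw c k l) with
  | some l => (l, csw c k l)
  | none => (k, c)

/-- six steps around the vertex of the hexagon `c` in which the place `z` is 0 and `y` is 2 -/
def around (n m c z y : ℕ) : List ℕ :=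
  let a1 := nxt n m c y 2
  let a2 := nxt n m a1.2 z 0
  let a3 := nxt n m a2.2 a1.1 2
  let a4 := nxt n m a3.2 a2.1 0
  let a5 := nxt n m a4.2 a3.1 2
  [c, a1.2, a2.2, a3.2, a4.2, a5.2]

/-- the steps around a vertex reach all hexagons at the vertex -/
def ck3 (n m : ℕ) : Bool := (codes n m).all fun c => (List.range n).all fun z =>
  (List.range n).all fun y => dg c z != 1 || dg c y != 1 || z == y ||
    ((List.range n).all fun z' => (List.range n).all fun y' =>
      dg (c + 3 ^ y - 3 ^ z) z' != 0 || dg (c + 3 ^ y - 3 ^ z) y' != 2 ||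
        !(m.testBit (c + 3 ^ y - 3 ^ z + 3 ^ z' - 3 ^ y')) ||
        (around n m c z y).contains (c + 3 ^ y - 3 ^ z + 3 ^ z' - 3 ^ y'))

/-- every code of the list has a neighbour among the codes in the mask `s` and the earlier ones -/
def okc (n : ℕ) : ℕ → List ℕ → Bool
  | _, [] => true
  | s, c :: r => ((List.range n).any fun k => dg c k == 1 && (List.range n).any fun l =>
      dg c l != 1 && s.testBit (csw c k l)) && okc n (s ||| (1 <<< c)) r

/-- connectivity, by means of a list of the codes -/
def ck4 (n m c0 : ℕ) (r : List ℕ) : Bool := okc n (1 <<< c0) r &&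
  (r.all fun c => m.testBit c && Nat.blt c (3 ^ n)) && m.testBit c0 && Nat.blt c0 (3 ^ n) &&
  (codes n m).all fun c => c == c0 || r.contains c

/-- the number of the vertices -/
def nv (n m : ℕ) : ℕ := ((List.range (3 ^ n)).filter fun v => cnt n v 1 == 1 &&
  (List.range n).any fun z => dg v z == 0 && (List.range n).any fun y => dg v y == 2 &&
    m.testBit (v + 3 ^ z - 3 ^ y)).length

/-- orientability, the signs are given by the mask `s` -/
def ck6 (n m s : ℕ) : Bool := (codes n m).all fun c => (List.range n).all fun k =>
  (List.range n).all fun l => dg c k != 1 || dg c l == 1 || !(m.testBit (csw c k l)) ||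
    ((s.testBit (csw c k l) == s.testBit c) == (cbt n c k l % 2 == 1))

/-- a walk in the mask `s`: the last code and the parity of the number of changes of the sign -/
def walk (n s : ℕ) : ℕ → Bool → List (ℕ × ℕ) → Option (ℕ × Bool)
  | c, p, [] => some (c, p)
  | c, p, (k, l) :: r =>
    if Nat.blt k n && Nat.blt l n && dg c k == 1 && dg c l != 1 && s.testBit (csw c k l) then
      walk n s (csw c k l) (p != (cbt n c k l % 2 == 0)) r
    else none

/-- a closed walk in the mask `s` along which the sign changes -/
def ck7 (n s c0 : ℕ) (r : List (ℕ × ℕ)) : Bool :=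
  Nat.blt c0 (3 ^ n) && s.testBit c0 && walk n s c0 false r == some (c0, true)

/-- the word with the code `q` is full in the mask `m`, and its hexagons are not in the mask `s`,
which is contained in `m` -/
def ck8 (n m s q : ℕ) : Bool := Nat.blt q (3 ^ n) && cnt n q 1 == 4 &&
  ((List.range n).all fun w => dg q w != 1 ||
    (m.testBit (q + 3 ^ w) && !(s.testBit (q + 3 ^ w)))) && (s &&& m) == s

end Codes

end Pool.Agent.H54.RH
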