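import Pool.Agent.H54.RH.Defs

/-!
# MP_def5ca_co: targets of the board `rhx_modules`
-/

set_option autoImplicit false

namespace Pool.Agent.H54.RH

open Pool.Agent.H54.PM (body IsGon IsEdge Un IsPM ver edg chi Ori Fan)

/-! ### Codes: the Boolean checks are sound -/

/-- K0: the dictionary -/
def T_K0 : Prop := ∀ (n : ℕ) (h : W n), cd h < 3 ^ n ∧
  (∀ t : Fin n, dg (cd h) t.val = (h t).val) ∧ (∀ c < 3 ^ n, ∃ g : W n, cd g = c) ∧
  Function.Injective (cd (n := n)) ∧ ∀ k l : Fin n, cd (sw h k l) = csw (cd h) k.val l.val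

def T_K1 : Prop := ∀ n b m : ℕ, ck1 n b m = true → ∀ h ∈ MS n m,
  (act h).card = 3 ∧ (two h).card = b

def T_K2 : Prop := ∀ n m : ℕ, ck2 n m = true → ∀ h ∈ MS n m, ∀ k, h k = 1 → ∀ c, c ≠ 1 →
  ∃! l, h l = c ∧ sw h k l ∈ MS n m

def T_K3 : Prop := ∀ n m : ℕ, ck3 n m = true → ∀ v, ∀ h ∈ MS n m, ∀ g ∈ MS n m, IsVx h v →
  IsVx g v → Relation.ReflTransGen (nbv (MS n m) v) h g

def T_K4 : Prop := ∀ (n m c0 : ℕ) (r : List ℕ), ck4 n m c0 r = true → (MS n m).Nonempty ∧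
  ∀ h ∈ MS n m, ∀ g ∈ MS n m, Relation.ReflTransGen (nb (MS n m)) h g

def T_K5 : Prop := ∀ n b m : ℕ, ck1 n b m = true →
  (vx (MS n m)).card = nv n m ∧ (MS n m).card = (codes n m).length

def T_K6 : Prop := ∀ n m s : ℕ, ck6 n m s = true → Orw (MS n m)

def T_K7 : Prop := ∀ (n s c0 : ℕ) (r : List (ℕ × ℕ)), ck7 n s c0 r = true → ¬ Orw (MS n s)

def T_K8 : Prop := ∀ n m s q : ℕ, ck8 n m s q = true → ∃ q' : W n, Full (MS n m) q' ∧
  MS n s ⊆ MS n m ∧ ∀ w, q' w = 1 → Function.update q' w 2 ∉ MS n s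

/-! ### Stacking -/

/-- SA: the elements -/
def T_SA : Prop := ∀ (n b : ℕ) (M : Finset (W n)) (q : W n), Good M b → Full M q →
  ∀ g : W (n + 1), g ∈ stk M q ↔
    (∃ h ∈ M, (∀ w, q w = 1 → h ≠ Function.update q w 2) ∧ g = up h) ∨ (g ∈ blk q ∧ g 0 ≠ 0)

/-- SE: letters and edges -/
def T_SE : Prop := ∀ (n b : ℕ) (M : Finset (W n)) (q : W n), Good M b → Full M q →
  (∀ h ∈ stk M q, (act h).card = 3 ∧ (two h).card = b) ∧
  ∀ h ∈ stk M q, ∀ k, h k = 1 → ∀ c, c ≠ 1 → ∃! l, h l = c ∧ sw h k l ∈ stk M q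

/-- SL: the vertices -/
def T_SL : Prop := ∀ (n b : ℕ) (M : Finset (W n)) (q : W n), Good M b → Full M q →
  ∀ v, ∀ h ∈ stk M q, ∀ g ∈ stk M q, IsVx h v → IsVx g v →
    Relation.ReflTransGen (nbv (stk M q) v) h g

/-- SC: connectivity -/
def T_SC : Prop := ∀ (n b : ℕ) (M : Finset (W n)) (q : W n), Good M b → Full M q →
  (stk M q).Nonempty ∧ ∀ h ∈ stk M q, ∀ g ∈ stk M q, Relation.ReflTransGen (nb (stk M q)) h g

/-- SX: the Euler characteristic -/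
def T_SX : Prop := ∀ (n b : ℕ) (M : Finset (W n)) (q : W n), Good M b → Full M q →
  cx (stk M q) = cx M - 6

/-- SO: orientable surfaces -/
def T_SO : Prop := ∀ (n b : ℕ) (M : Finset (W n)) (q : W n), Good M b → Full M q →
  Orw M → Orw (stk M q)

/-- SN: nonorientable surfaces -/
def T_SN : Prop := ∀ (n b : ℕ) (M S : Finset (W n)) (q u : W n) (w : Fin n), Good M b → Full M q →
  S ⊆ M → ¬ Orw S → (∀ w, q w = 1 → Function.update q w 2 ∉ S) → q w = 1 →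
  u = Function.update q w 0 → Full (stk M q) (Fin.cons 1 u) ∧ S.image up ⊆ stk M q ∧
    ¬ Orw (S.image up) ∧
    ∀ t, (Fin.cons 1 u : W (n + 1)) t = 1 → Function.update (Fin.cons 1 u) t 2 ∉ S.image up

/-- ST: six less -/
def T_ST : Prop := (∀ X, OI X → OI (X - 6)) ∧ ∀ X, NI X → NI (X - 6)

/-- FM: the two families -/
def T_FM : Prop := OI (-10) → OI (-18) → OI (-26) → NI (-30) → NI (-35) → NI (-38) → NI (-40) →
  NI (-43) → NI (-45) →
  (∀ X : ℤ, Even X → X ≤ -22 ∨ X = -10 ∨ X = -16 ∨ X = -18 → OI X) ∧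
  ∀ X : ℤ, X ≤ -40 ∨ X = -30 ∨ X = -35 ∨ X = -36 ∨ X = -38 → NI X

/-! ### Hexagons -/

/-- HB: the points of a hexagon -/
def T_HB : Prop := ∀ (n : ℕ) (h : W n), (act h).card = 3 → body (hf h) = Pg h

/-- HG: it is a convex hexagon -/
def T_HG : Prop := ∀ (n : ℕ) (h : W n), (act h).card = 3 → IsGon 6 (hf h)

/-- HE: the edges -/
def T_HE : Prop := ∀ (n : ℕ) (h : W n), (act h).card = 3 → ∀ u v : Fin n → ℝ,
  IsEdge (hf h) u v ↔ ∃ a a' : W n, u = pw a ∧ v = pw a' ∧ IsVx h a ∧ IsVx h a' ∧ a ≠ a' ∧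
    ∃ t, h t = 1 ∧ a t = a' t ∧ a t ≠ 1

/-- HX: intersections -/
def T_HX : Prop := ∀ (n : ℕ) (h g : W n), (act h).card = 3 → (act g).card = 3 →
  (two h).card = (two g).card → h ≠ g →
  (body (hf h) ∩ body (hf g) = ∅ ∨
    (∃ v, v ∈ hf h ∧ v ∈ hf g ∧ body (hf h) ∩ body (hf g) = {v}) ∨
    ∃ u v, IsEdge (hf h) u v ∧ IsEdge (hf g) u v ∧ body (hf h) ∩ body (hf g) = segment ℝ u v) ∧
  affineSpan ℝ (hf h : Set (Fin n → ℝ)) ≠ affineSpan ℝ (hf g : Set (Fin n → ℝ)) ∧ hf h ≠ hf g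

/-- HS: common edges -/
def T_HS : Prop := ∀ (n : ℕ) (h g a a' : W n), (act h).card = 3 → (act g).card = 3 →
  (two h).card = (two g).card → h ≠ g → IsEdge (hf h) (pw a) (pw a') →
  IsEdge (hf g) (pw a) (pw a') →
  ∃ k l, h k = 1 ∧ h l ≠ 1 ∧ g = sw h k l ∧ a k = h l ∧ a' k = h l

/-! ### The local structure -/

/-- LK: the places at a vertex in cyclic order -/
def T_LK : Prop := ∀ (n b : ℕ) (M : Finset (W n)), Good M b → ∀ v : W n, (∃ h ∈ M, IsVx h v) →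
  ∃ (d : ℕ) (_ : NeZero d) (r : Fin d → Fin n), 4 ≤ d ∧ Lk M v d r

/-- LO: the chart at a vertex -/
def T_LO : Prop := ∀ (n b : ℕ) (M : Finset (W n)), Good M b → ∀ (v : W n) (d : ℕ) [NeZero d]
  (r : Fin d → Fin n), 4 ≤ d → Lk M v d r →
  ∃ e : OpenPartialHomeomorph (Un (hfam M)) (Fan d), ∀ x : Un (hfam M),
    (∀ t, (v t ≠ 0 → 0 < x.1 t) ∧ (v t ≠ 2 → x.1 t < 2)) → x ∈ e.source

/-- MF: the union is a manifold -/
def T_MF : Prop := ∀ (n b : ℕ) (M : Finset (W n)), Good M b → ∀ x : Un (hfam M),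
  ∃ e : OpenPartialHomeomorph (Un (hfam M)) (EuclideanSpace ℝ (Fin 2)), x ∈ e.source

/-! ### Global properties -/

/-- CN: connectivity -/
def T_CN : Prop := ∀ (n b : ℕ) (M : Finset (W n)), Good M b → IsConnected (Un (hfam M))

/-- CT: the numbers of vertices, edges and hexagons -/
def T_CT : Prop := ∀ (n b : ℕ) (M : Finset (W n)), Good M b →
  (ver (hfam M)).ncard = (vx M).card ∧ (edg (hfam M)).ncard = 3 * M.card ∧
    (hfam M).card = M.card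

/-- OR: orientability -/
def T_OR : Prop := ∀ (n b : ℕ) (M : Finset (W n)), Good M b → (Ori (hfam M) ↔ Orw M)

open Classical in
/-- RG: regular hexagons -/
def T_RG : Prop := ∀ (n : ℕ) (h : W n), (act h).card = 3 → IsRegHex ((hf h).image (Lm n))

/-- GE: the surface -/
def T_GE : Prop := ∀ (n b : ℕ) (M : Finset (W n)), Good M b →
  ∃ F : Finset (Finset (EuclideanSpace ℝ (Fin n))), IsPM F ∧ IsConnected (Un F) ∧
    (∀ A ∈ F, IsRegHex A) ∧ chi F = cx M ∧ (Ori F ↔ Orw M)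

/-! ### The theorem -/

/-- FN -/
def T_FN : Prop :=
  (∀ X : ℤ, X ≤ -40 ∨ X = -30 ∨ X = -35 ∨ X = -36 ∨ X = -38 →
    ∃ (n : ℕ) (F : Finset (Finset (EuclideanSpace ℝ (Fin n)))), IsPM F ∧ IsConnected (Un F) ∧
      (∀ A ∈ F, IsRegHex A) ∧ chi F = X ∧ ¬ Ori F) ∧
  ∀ X : ℤ, Even X → X ≤ -22 ∨ X = -10 ∨ X = -16 ∨ X = -18 →
    ∃ (n : ℕ) (F : Finset (Finset (EuclideanSpace ℝ (Fin n)))), IsPM F ∧ IsConnected (Un F) ∧
      (∀ A ∈ F, IsRegHex A) ∧ chi F = X ∧ Ori F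

end Pool.Agent.H54.RH
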